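import Pool.Agent.H572R4.Stmts

set_option autoImplicit false

namespace Pool.Agent.H842R5.PI

open Pool.Agent.Helper446.Defs Pool.Agent.Helper446.CB Pool.Agent.Helper446.CB.Ix
open Pool.Agent.H572R4

theorem qp_ne_zz (j m : ℕ) : qp j m ≠ zz := by
  intro h
  have := congrFun h j
  simp [qp, zz] at this

theorem qp_ne_xp (j m : ℕ) : qp j m ≠ xp j := by
  intro h
  have := congrFun h (j + 1 + m)
  simp [qp, xp] at this
  omega

/-- the cylinder of `0^j 1 0^t` -/
def UU (j t : ℕ) : Set (ℕ → Bool) := {x | ∀ i < j + 1 + t, x i = xp j i}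

theorem UU_clopen (j t : ℕ) : IsClopen (UU j t) := by
  have : UU j t = ⋂ i ∈ Finset.range (j + 1 + t), (fun x : ℕ → Bool => x i) ⁻¹' {xp j i} := by
    ext x
    simp [UU]
  rw [this]
  refine Set.Finite.isClopen_biInter (Finset.finite_toSet _) fun i _ => ?_
  exact (isClopen_discrete _).preimage (continuous_apply i)

theorem zz_notMem (j t : ℕ) : zz ∉ UU j t := by
  intro h
  have := h j (by omega)
  simp [zz, xp] at this

theorem xp_mem {j t j' : ℕ} (h : xp j' ∈ UU j t) : j' = j := by
  have := h j (by omega)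
  simp [xp] at this
  omega

theorem qp_mem {j t j' m' : ℕ} (h : qp j' m' ∈ UU j t) : j' = j ∧ t ≤ m' := by
  have h1 := h j (by omega)
  simp [qp, xp] at h1
  rcases h1 with h1 | h1
  · refine ⟨h1.symm, ?_⟩
    by_contra hcon
    have h2 := h (j + 1 + m') (by omega)
    subst h1
    simp [qp, xp] at h2
    omega
  · exfalso
    have h2 := h j' (by omega)
    simp [qp, xp] at h2
    omega

theorem re_not_mem {S : Set (ℕ → Bool)} (hS : IsPi01 S) (j i : ℕ) :
    REPred (fun k => k ∈ {k : ℕ | qp j (Nat.pair i k) ∉ S}) := by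
  obtain ⟨V, hV, rfl⟩ := isPi01_iff.1 hS
  have hc : Computable fun x : ℕ × ℕ => seg (qp j (Nat.pair i x.1)) x.2 := by
    refine Primrec.to_comp ?_
    refine Primrec.list_map (Primrec.list_range.comp Primrec.snd) ?_
    have h1 : PrimrecPred fun y : (ℕ × ℕ) × ℕ => y.2 = j ∨ y.2 = j + 1 + Nat.pair i y.1.1 := by
      refine PrimrecPred.or (Primrec.eq.comp Primrec.snd (Primrec.const j)) ?_
      refine Primrec.eq.comp Primrec.snd ?_
      exact Primrec.nat_add.comp (Primrec.const (j + 1))
        (Primrec₂.natPair.comp (Primrec.const i) (Primrec.fst.comp Primrec.fst))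
    exact h1.decide
  have h2 := Pool.Agent.Helper446.RE.exN (p := fun (k n : ℕ) => seg (qp j (Nat.pair i k)) n ∈ V)
    (Pool.Agent.Helper446.RE.comp hV hc)
  refine h2.of_eq fun k => ?_
  simp

theorem claim {B : EPi} (hB : B.1 = {zz}) {C : Set ℕ} (hC : CohS C) {Q : LB B} (hQ : Q.1 = qS C)
    {j : ℕ} {a : LB B} (ha : a.1 = {zz, xp j}) {d : LB B} (hd : d ≤ Q)
    (hacc : ∀ c, Cpl c → a ≤ c → ¬ (c ⊓ d ≤ a)) :
    ∃ i < j.unpair.1, (C ∩ {k : ℕ | qp j (Nat.pair i k) ∉ d.1}).Finite := by
  by_contra hcon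
  push Not at hcon
  have hfin : ∀ i < j.unpair.1, (C \ {k : ℕ | qp j (Nat.pair i k) ∉ d.1}).Finite := by
    intro i hi
    rcases hC.2.2 _ (re_not_mem d.2.1 j i) with h | h
    · exact absurd h (hcon i hi)
    · exact h
  have hM : (⋃ i ∈ Finset.range j.unpair.1,
      (fun k => Nat.pair i k) '' (C \ {k : ℕ | qp j (Nat.pair i k) ∉ d.1})).Finite := by
    refine Set.Finite.biUnion (Finset.finite_toSet _) fun i hi => ?_
    exact (hfin i (by simpa using hi)).image _
  obtain ⟨t, ht⟩ := hM.bddAbove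
  let c : LB B := ⟨{zz} ∪ UU j (t + 1), IsPi01.union
    (by rw [← hB]; exact B.2) (IsPi01.of_clopen (UU_clopen _ _)), by
      rw [hB]; exact Set.subset_union_left⟩
  let c' : LB B := ⟨(UU j (t + 1))ᶜ, IsPi01.of_clopen (UU_clopen _ _).compl, by
      rw [hB]
      intro x hx
      rw [Set.mem_singleton_iff.1 hx]
      exact zz_notMem _ _⟩
  have hcc : Cpl c := by
    refine ⟨c', ?_, ?_⟩
    · refine Subtype.ext ?_
      rw [lb_inf, lb_bot]
      refine Eq.trans (?_ : ({zz} ∪ UU j (t + 1)) ∩ (UU j (t + 1))ᶜ = {zz}) hB.symm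
      ext x
      constructor
      · rintro ⟨h1 | h1, h2⟩
        · exact h1
        · exact absurd h1 h2
      · intro h
        refine ⟨Or.inl h, ?_⟩
        rw [Set.mem_singleton_iff.1 h]
        exact zz_notMem _ _
    · refine Subtype.ext ?_
      rw [lb_sup, lb_top]
      ext x
      refine ⟨fun _ => trivial, fun _ => ?_⟩
      by_cases h : x ∈ UU j (t + 1)
      · exact Or.inl (Or.inr h)
      · exact Or.inr h
  refine hacc c hcc ?_ ?_
  · rw [lb_le, ha]
    rintro x (hx | hx)
    · exact Or.inl hx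
    · refine Or.inr ?_
      rw [Set.mem_singleton_iff.1 hx]
      intro i _
      rfl
  · rw [lb_le, lb_inf, ha]
    rintro x ⟨hx | hx, hxd⟩
    · exact Or.inl hx
    · have hxQ : x ∈ qS C := by
        rw [← hQ]; exact hd hxd
      rcases hxQ with (hx0 | ⟨j', hx1⟩) | ⟨j', m', hm1, hm2, hx2⟩
      · exact Or.inl hx0
      · subst hx1
        rw [xp_mem hx]
        exact Or.inr rfl
      · exfalso
        subst hx2
        obtain ⟨h1, h2⟩ := qp_mem hx
        subst h1
        have h3 : m' ≤ t := by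
          apply ht
          simp only [Set.mem_iUnion]
          refine ⟨m'.unpair.1, by simpa using hm1, m'.unpair.2, ⟨hm2, ?_⟩, Nat.pair_unpair m'⟩
          rw [Set.mem_ofPred_eq, not_not, Nat.pair_unpair]
          exact hxd
        omega

theorem taskD9 : TaskD9 := by
  intro B hB C hC Q hQ j m a ha hN
  obtain ⟨D, hlen, hle, hpw, hacc⟩ := hN
  have hcl : ∀ p : Fin D.length, ∃ i : Fin j.unpair.1,
      (C ∩ {k : ℕ | qp j (Nat.pair i k) ∉ (D.get p).1}).Finite := by
    intro p
    obtain ⟨i, hi, h⟩ := claim hB hC hQ ha (hle _ (D.get_mem p)) (hacc _ (D.get_mem p))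
    exact ⟨⟨i, hi⟩, h⟩
  choose f hf using hcl
  have hinj : Function.Injective f := by
    have key : ∀ p q : Fin D.length, p < q → f p ≠ f q := by
      intro p q hpq he
      have h1 := hf p
      have h2 := hf q
      rw [← he] at h2
      obtain ⟨k, hkC, hk⟩ := (hC.1.sdiff (h1.union h2)).nonempty
      have hk1 : qp j (Nat.pair (f p) k) ∈ (D.get p).1 := by
        by_contra hcon
        exact hk (Or.inl ⟨hkC, hcon⟩)
      have hk2 : qp j (Nat.pair (f p) k) ∈ (D.get q).1 := by
        by_contra hcon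
        exact hk (Or.inr ⟨hkC, hcon⟩)
      have h3 : D.get p ⊓ D.get q ≤ a := List.pairwise_iff_get.1 hpw p q hpq
      have h4 : qp j (Nat.pair (f p) k) ∈ a.1 := h3 ⟨hk1, hk2⟩
      rw [ha] at h4
      rcases h4 with h4 | h4
      · exact qp_ne_zz _ _ h4
      · exact qp_ne_xp _ _ h4
    intro p q he
    rcases lt_trichotomy p q with h | h | h
    · exact absurd he (key p q h)
    · exact h
    · exact absurd he.symm (key q p h)
  have := Fintype.card_le_of_injective f hinj
  simpa [hlen] using this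

end Pool.Agent.H842R5.PI
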